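import Pool.Agent.Helper70.DK.Defs

/-!
# MP_b1773a_an, module E7: small information implies `L¹`-close conditional laws
-/

namespace Pool.Agent.Helper70.DK

open Finset

/-- the pointwise inequality -/
theorem e7_point (n N F G : ℝ) (hn : 0 < n) (hN : 0 ≤ N) (hF : N ≤ F) (hG : N ≤ G) :
    2 * N - 2 * (Real.sqrt N * Real.sqrt (F * G / n)) ≤
      N * (Real.log n + Real.log N - Real.log F - Real.log G) := by
  rcases hN.eq_or_lt with h | h
  · subst h
    simp
  · have hF0 : 0 < F := h.trans_le hF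
    have hG0 : 0 < G := h.trans_le hG
    have hx : 0 < Real.sqrt (F * G / n) / Real.sqrt N := by
      have : 0 < F * G / n := by positivity
      positivity
    have h1 := Real.log_le_sub_one_of_pos hx
    have h2 : Real.log (Real.sqrt (F * G / n) / Real.sqrt N) =
        (Real.log F + Real.log G - Real.log n - Real.log N) / 2 := by
      rw [Real.log_div (by positivity) (by positivity), Real.log_sqrt (by positivity),
        Real.log_sqrt hN, Real.log_div (by positivity) hn.ne', Real.log_mul hF0.ne' hG0.ne']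
      ring
    rw [h2] at h1
    have h3 : Real.log F + Real.log G - Real.log n - Real.log N ≤
        2 * (Real.sqrt (F * G / n) / Real.sqrt N) - 2 := by linarith
    have h4 : N * (2 - 2 * (Real.sqrt (F * G / n) / Real.sqrt N)) =
        2 * N - 2 * (Real.sqrt N * Real.sqrt (F * G / n)) := by
      have h5 : N = Real.sqrt N * Real.sqrt N := (Real.mul_self_sqrt hN).symm
      have h6 : N * (Real.sqrt (F * G / n) / Real.sqrt N) =
          Real.sqrt N * Real.sqrt (F * G / n) := by
        have h7 : Real.sqrt N ≠ 0 := (Real.sqrt_pos.2 h).ne'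
        rw [mul_div_assoc', div_eq_iff h7]
        conv_lhs => rw [h5]
        ring
      rw [mul_sub, mul_left_comm, h6]
      ring
    rw [← h4]
    refine mul_le_mul_of_nonneg_left ?_ hN
    linarith

/-- the matrix form -/
theorem e7_mat {α β : Type} (C : Finset β) (Z : Finset α) (N : β → α → ℝ)
    (hN : ∀ c z, 0 ≤ N c z) (n : ℝ) (hn : 0 < n) (G : β → ℝ) (F : α → ℝ)
    (hG : ∀ c ∈ C, ∑ z ∈ Z, N c z = G c) (hF : ∀ z ∈ Z, ∑ c ∈ C, N c z = F z)
    (hFn : ∑ z ∈ Z, F z = n) (e e' : β) (he : e ∈ C) (he' : e' ∈ C) (hne : e ≠ e') (τ : ℝ)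
    (hτ : 0 < τ) (h1 : τ * n ≤ G e) (h2 : τ * n ≤ G e') :
    τ * (∑ z ∈ Z, |N e z / G e - N e' z / G e'|) ^ 2 ≤
      8 * ((∑ c ∈ C, ∑ z ∈ Z, N c z *
        (Real.log n + Real.log (N c z) - Real.log (F z) - Real.log (G c))) / n) := by
  classical
  have hF0 : ∀ z ∈ Z, 0 ≤ F z := fun z hz => by
    rw [← hF z hz]
    exact Finset.sum_nonneg fun c _ => hN c z
  have hG0 : ∀ c ∈ C, 0 ≤ G c := fun c hc => by
    rw [← hG c hc]
    exact Finset.sum_nonneg fun z _ => hN c z
  -- the Hellinger distances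
  obtain ⟨d, hd⟩ : ∃ d : β → ℝ, d = fun c =>
      ∑ z ∈ Z, (Real.sqrt (N c z) - Real.sqrt (F z * G c / n)) ^ 2 := ⟨_, rfl⟩
  have hd0 : ∀ c, 0 ≤ d c := fun c => by
    rw [hd]
    exact Finset.sum_nonneg fun z _ => sq_nonneg _
  have hM : ∀ c ∈ C, ∑ z ∈ Z, F z * G c / n = G c := by
    intro c _
    rw [← Finset.sum_div, ← Finset.sum_mul, hFn]
    field_simp
  have hlow : ∀ c ∈ C, d c ≤ ∑ z ∈ Z, N c z *
      (Real.log n + Real.log (N c z) - Real.log (F z) - Real.log (G c)) := by
    intro c hc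
    have e1 : d c = ∑ z ∈ Z, (2 * N c z - 2 * (Real.sqrt (N c z) *
        Real.sqrt (F z * G c / n))) := by
      have e2 : d c = ∑ z ∈ Z, N c z + ∑ z ∈ Z, F z * G c / n -
          ∑ z ∈ Z, 2 * (Real.sqrt (N c z) * Real.sqrt (F z * G c / n)) := by
        rw [hd, ← Finset.sum_add_distrib, ← Finset.sum_sub_distrib]
        refine Finset.sum_congr rfl fun z hz => ?_
        have h3 : 0 ≤ F z * G c / n := div_nonneg (mul_nonneg (hF0 z hz) (hG0 c hc)) hn.le
        rw [sub_sq, Real.sq_sqrt (hN c z), Real.sq_sqrt h3]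
        ring
      have e3 : ∑ z ∈ Z, 2 * N c z = 2 * G c := by rw [← Finset.mul_sum, hG c hc]
      rw [e2, hM c hc, hG c hc, Finset.sum_sub_distrib, e3]
      ring
    rw [e1]
    refine Finset.sum_le_sum fun z hz => ?_
    refine e7_point n (N c z) (F z) (G c) hn (hN c z) ?_ ?_
    · rw [← hF z hz]
      exact Finset.single_le_sum (f := fun c => N c z) (fun c _ => hN c z) hc
    · rw [← hG c hc]
      exact Finset.single_le_sum (f := fun z => N c z) (fun z _ => hN c z) hz
  -- the two distances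
  have hdist : ∀ c ∈ C, τ * n ≤ G c →
      τ * n * (∑ z ∈ Z, |N c z / G c - F z / n|) ^ 2 ≤ 4 * d c := by
    intro c hc hcG
    have hGc : 0 < G c := (mul_pos hτ hn).trans_le hcG
    have e1 : ∑ z ∈ Z, |N c z / G c - F z / n| =
        (∑ z ∈ Z, |N c z - F z * G c / n|) / G c := by
      rw [Finset.sum_div]
      refine Finset.sum_congr rfl fun z _ => ?_
      have h3 : |N c z - F z * G c / n| / G c = |(N c z - F z * G c / n) / G c| := by
        rw [abs_div, abs_of_pos hGc]
      rw [h3]
      congr 1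
      field_simp
    have hCS : (∑ z ∈ Z, |N c z - F z * G c / n|) ^ 2 ≤ d c * (4 * G c) := by
      have e2 : ∀ z ∈ Z, |N c z - F z * G c / n| =
          |Real.sqrt (N c z) - Real.sqrt (F z * G c / n)| *
            (Real.sqrt (N c z) + Real.sqrt (F z * G c / n)) := by
        intro z hz
        have h3 : 0 ≤ F z * G c / n := div_nonneg (mul_nonneg (hF0 z hz) hGc.le) hn.le
        have h4 : N c z - F z * G c / n =
            (Real.sqrt (N c z) - Real.sqrt (F z * G c / n)) *
              (Real.sqrt (N c z) + Real.sqrt (F z * G c / n)) := by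
          have h5 := Real.mul_self_sqrt (hN c z)
          have h6 := Real.mul_self_sqrt h3
          linear_combination -h5 + h6
        rw [h4, abs_mul, abs_of_nonneg (a := Real.sqrt (N c z) + Real.sqrt (F z * G c / n))
          (by positivity)]
      rw [Finset.sum_congr rfl e2]
      refine (Finset.sum_mul_sq_le_sq_mul_sq Z _ _).trans ?_
      have e3 : ∑ z ∈ Z, |Real.sqrt (N c z) - Real.sqrt (F z * G c / n)| ^ 2 = d c := by
        rw [hd]
        exact Finset.sum_congr rfl fun z _ => sq_abs _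
      have e4 : ∑ z ∈ Z, (Real.sqrt (N c z) + Real.sqrt (F z * G c / n)) ^ 2 ≤ 4 * G c := by
        have h5 : ∀ z ∈ Z, (Real.sqrt (N c z) + Real.sqrt (F z * G c / n)) ^ 2 ≤
            2 * (N c z + F z * G c / n) := by
          intro z hz
          have h3 : 0 ≤ F z * G c / n := div_nonneg (mul_nonneg (hF0 z hz) hGc.le) hn.le
          have h6 := Real.sq_sqrt (hN c z)
          have h7 := Real.sq_sqrt h3
          nlinarith [sq_nonneg (Real.sqrt (N c z) - Real.sqrt (F z * G c / n))]
        refine (Finset.sum_le_sum h5).trans ?_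
        rw [← Finset.mul_sum, Finset.sum_add_distrib, hG c hc, hM c hc]
        linarith
      rw [e3]
      exact mul_le_mul_of_nonneg_left e4 (hd0 c)
    rw [e1, div_pow]
    have h5 : τ * n * ((∑ z ∈ Z, |N c z - F z * G c / n|) ^ 2 / G c ^ 2) ≤
        G c * ((d c * (4 * G c)) / G c ^ 2) := by
      refine mul_le_mul hcG ?_ (by positivity) hGc.le
      exact div_le_div_of_nonneg_right hCS (by positivity)
    refine h5.trans (le_of_eq ?_)
    field_simp
  have hA := hdist e he h1
  have hB := hdist e' he' h2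
  obtain ⟨a, ha⟩ : ∃ a, a = ∑ z ∈ Z, |N e z / G e - F z / n| := ⟨_, rfl⟩
  obtain ⟨a', ha'⟩ : ∃ a', a' = ∑ z ∈ Z, |N e' z / G e' - F z / n| := ⟨_, rfl⟩
  rw [← ha] at hA
  rw [← ha'] at hB
  have ha0 : 0 ≤ a := by rw [ha]; exact Finset.sum_nonneg fun z _ => abs_nonneg _
  have ha0' : 0 ≤ a' := by rw [ha']; exact Finset.sum_nonneg fun z _ => abs_nonneg _
  have htri : ∑ z ∈ Z, |N e z / G e - N e' z / G e'| ≤ a + a' := by
    rw [ha, ha', ← Finset.sum_add_distrib]
    refine Finset.sum_le_sum fun z _ => ?_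
    have h3 := abs_sub_le (N e z / G e) (F z / n) (N e' z / G e')
    rwa [abs_sub_comm (F z / n)] at h3
  have hl0 : 0 ≤ ∑ z ∈ Z, |N e z / G e - N e' z / G e'| :=
    Finset.sum_nonneg fun z _ => abs_nonneg _
  have hsum : d e + d e' ≤ ∑ c ∈ C, ∑ z ∈ Z, N c z *
      (Real.log n + Real.log (N c z) - Real.log (F z) - Real.log (G c)) := by
    have h3 : ∑ c ∈ ({e, e'} : Finset β), d c ≤ ∑ c ∈ C, d c := by
      refine Finset.sum_le_sum_of_subset_of_nonneg ?_ fun c _ _ => hd0 c
      intro c hc
      rcases Finset.mem_insert.1 hc with rfl | hc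
      · exact he
      · rw [Finset.mem_singleton.1 hc]
        exact he'
    rw [Finset.sum_pair hne] at h3
    exact h3.trans (Finset.sum_le_sum hlow)
  rw [← mul_div_assoc, le_div_iff₀ hn]
  have h3 : (∑ z ∈ Z, |N e z / G e - N e' z / G e'|) ^ 2 ≤ 2 * (a ^ 2 + a' ^ 2) := by
    have h4 : (∑ z ∈ Z, |N e z / G e - N e' z / G e'|) ^ 2 ≤ (a + a') ^ 2 :=
      pow_le_pow_left₀ hl0 htri 2
    nlinarith [sq_nonneg (a - a')]
  have hτn : 0 ≤ τ * n := by positivity
  calc τ * (∑ z ∈ Z, |N e z / G e - N e' z / G e'|) ^ 2 * n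
      = τ * n * (∑ z ∈ Z, |N e z / G e - N e' z / G e'|) ^ 2 := by ring
    _ ≤ τ * n * (2 * (a ^ 2 + a' ^ 2)) := mul_le_mul_of_nonneg_left h3 hτn
    _ = 2 * (τ * n * a ^ 2 + τ * n * a' ^ 2) := by ring
    _ ≤ 8 * (d e + d e') := by linarith
    _ ≤ _ := mul_le_mul_of_nonneg_left hsum (by norm_num)

/-- **Module E7.** -/
theorem st_E7 : ST_E7 := by
  classical
  intro Ω α β S f g e e' τ hτ hS h1 h2 hne
  have hn : (0 : ℝ) < (S.card : ℝ) := by exact_mod_cast hS.card_pos
  obtain ⟨N, hNdef⟩ : ∃ N : β → α → ℝ, N = fun c z =>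
      ((S.filter (fun ω => f ω = z ∧ g ω = c)).card : ℝ) := ⟨_, rfl⟩
  obtain ⟨G, hGdef⟩ : ∃ G : β → ℝ, G = fun c => ((S.filter (fun ω => g ω = c)).card : ℝ) := ⟨_, rfl⟩
  obtain ⟨F, hFdef⟩ : ∃ F : α → ℝ, F = fun z => ((S.filter (fun ω => f ω = z)).card : ℝ) := ⟨_, rfl⟩
  have hG : ∀ c ∈ S.image g, ∑ z ∈ S.image f, N c z = G c := by
    intro c _
    rw [hNdef, hGdef]
    have h3 := Finset.card_eq_sum_card_fiberwise (f := f) (s := S.filter (fun ω => g ω = c))
      (t := S.image f) (fun ω hω => Finset.mem_image_of_mem f (Finset.mem_filter.1 hω).1)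
    simp only
    rw [h3]
    push_cast
    refine Finset.sum_congr rfl fun z _ => ?_
    rw [Finset.filter_filter]
    congr 2
    ext ω
    simp only [Finset.mem_filter]
    tauto
  have hF : ∀ z ∈ S.image f, ∑ c ∈ S.image g, N c z = F z := by
    intro z _
    rw [hNdef, hFdef]
    have h3 := Finset.card_eq_sum_card_fiberwise (f := g) (s := S.filter (fun ω => f ω = z))
      (t := S.image g) (fun ω hω => Finset.mem_image_of_mem g (Finset.mem_filter.1 hω).1)
    simp only
    rw [h3]
    push_cast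
    refine Finset.sum_congr rfl fun c _ => ?_
    rw [Finset.filter_filter]
  have hFn : ∑ z ∈ S.image f, F z = (S.card : ℝ) := by
    rw [hFdef]
    have h3 := Finset.card_eq_sum_card_fiberwise (f := f) (s := S) (t := S.image f)
      (fun ω hω => Finset.mem_image_of_mem f hω)
    rw [h3]
    push_cast
    rfl
  have hfe : ∀ c, ((fib S g c).card : ℝ) = G c := fun c => by rw [hGdef]; rfl
  have hmem : ∀ c, τ * (S.card : ℝ) ≤ G c → c ∈ S.image g := by
    intro c hc
    have h3 : 0 < G c := (mul_pos hτ hn).trans_le hc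
    rw [← hfe] at h3
    have h4 : 0 < (S.filter (fun ω => g ω = c)).card := Nat.cast_pos.1 h3
    obtain ⟨ω, hω⟩ := Finset.card_pos.1 h4
    obtain ⟨h5, h6⟩ := Finset.mem_filter.1 hω
    rw [← h6]
    exact Finset.mem_image_of_mem g h5
  rw [hfe] at h1 h2
  have key := e7_mat (S.image g) (S.image f) N (fun c z => by rw [hNdef]; positivity)
    (S.card : ℝ) hn G F hG hF hFn e e' (hmem e h1) (hmem e' h2) hne τ hτ h1 h2
  -- the information
  have hI : ent S f - cent S f g = (∑ c ∈ S.image g, ∑ z ∈ S.image f, N c z *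
      (Real.log (S.card : ℝ) + Real.log (N c z) - Real.log (F z) - Real.log (G c))) /
        (S.card : ℝ) := by
    have e1 : ∑ c ∈ S.image g, ∑ z ∈ S.image f, N c z *
        (Real.log (S.card : ℝ) + Real.log (N c z) - Real.log (F z) - Real.log (G c)) =
        ∑ ω ∈ S, (Real.log (S.card : ℝ) + Real.log (N (g ω) (f ω)) - Real.log (F (f ω)) -
          Real.log (G (g ω))) := by
      have h3 := Finset.sum_fiberwise_of_maps_to (s := S) (t := S.image g ×ˢ S.image f)
        (g := fun ω => (g ω, f ω)) (fun ω hω => Finset.mem_product.2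
          ⟨Finset.mem_image_of_mem g hω, Finset.mem_image_of_mem f hω⟩)
        (fun ω => (Real.log (S.card : ℝ) + Real.log (N (g ω) (f ω)) - Real.log (F (f ω)) -
          Real.log (G (g ω))))
      rw [← h3, Finset.sum_product]
      refine Finset.sum_congr rfl fun c _ => Finset.sum_congr rfl fun z _ => ?_
      have h4 : ∀ ω ∈ S.filter (fun ω => (g ω, f ω) = (c, z)),
          (Real.log (S.card : ℝ) + Real.log (N (g ω) (f ω)) - Real.log (F (f ω)) -
            Real.log (G (g ω))) =
          (Real.log (S.card : ℝ) + Real.log (N c z) - Real.log (F z) - Real.log (G c)) := by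
        intro ω hω
        have h5 := (Finset.mem_filter.1 hω).2
        rw [Prod.mk.injEq] at h5
        rw [h5.1, h5.2]
      rw [Finset.sum_congr rfl h4, Finset.sum_const, nsmul_eq_mul]
      congr 1
      rw [hNdef]
      simp only
      congr 2
      ext ω
      simp only [Finset.mem_filter, Prod.mk.injEq]
      tauto
    rw [e1]
    unfold cent ent
    rw [← sub_div, ← sub_div, ← Finset.sum_sub_distrib, ← Finset.sum_sub_distrib]
    congr 1
    refine Finset.sum_congr rfl fun ω _ => ?_
    have e2 : (S.filter (fun ω' => (f ω', g ω') = (f ω, g ω))).card =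
        (S.filter (fun ω' => f ω' = f ω ∧ g ω' = g ω)).card := by
      congr 1
      ext ω'
      simp only [Finset.mem_filter, Prod.mk.injEq]
    rw [hNdef, hFdef, hGdef]
    simp only
    rw [← e2]
    ring
  rw [hI]
  refine le_trans ?_ key
  -- comparison of the distances
  have hlaw : ∀ c z, law (fib S g c) f z = N c z / G c := by
    intro c z
    unfold law fib
    rw [hNdef, hGdef]
    simp only
    rw [Finset.filter_filter]
    congr 2
    congr 1
    ext ω
    simp only [Finset.mem_filter]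
    tauto
  have hl : l1 (fib S g e) f (fib S g e') f ≤
      ∑ z ∈ S.image f, |N e z / G e - N e' z / G e'| := by
    unfold l1
    have h3 : ∀ z, |law (fib S g e) f z - law (fib S g e') f z| =
        |N e z / G e - N e' z / G e'| := fun z => by rw [hlaw, hlaw]
    simp only [h3]
    refine Finset.sum_le_sum_of_subset_of_nonneg ?_ fun z _ _ => abs_nonneg _
    intro z hz
    rcases Finset.mem_union.1 hz with hz | hz
    · obtain ⟨ω, hω, rfl⟩ := Finset.mem_image.1 hz
      exact Finset.mem_image_of_mem f (Finset.mem_filter.1 hω).1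
    · obtain ⟨ω, hω, rfl⟩ := Finset.mem_image.1 hz
      exact Finset.mem_image_of_mem f (Finset.mem_filter.1 hω).1
  have hl0 : 0 ≤ l1 (fib S g e) f (fib S g e') f := by
    unfold l1
    exact Finset.sum_nonneg fun z _ => abs_nonneg _
  exact mul_le_mul_of_nonneg_left (pow_le_pow_left₀ hl0 hl 2) hτ.le

end Pool.Agent.Helper70.DK
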